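import Pool.Agent.N64.AF.E0

/-!
# E4: the numerical part, with a rate (helper344)
-/

set_option autoImplicit false

namespace Pool.Agent.N344.AF

variable {β : ℕ → ℕ} {b : ℕ}

lemma pos_even (hb : 0 < b) (h3 : ∀ n, (b ^ 2) ^ n ≤ (n + 1) ^ (b ^ 2) * β (2 * n)) (n : ℕ) :
    0 < β (2 * n) := by
  by_contra h
  have h4 : β (2 * n) = 0 := by omega
  have h1 := h3 n
  rw [h4, mul_zero] at h1
  have h5 : 0 < (b ^ 2) ^ n := by positivity
  omega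

/-- the quotients of the terms of even index -/
noncomputable def q (β : ℕ → ℕ) (k : ℕ) : ℝ := (β (2 * (k + 1)) : ℝ) / β (2 * k)

/-- the relative defect -/
noncomputable def xx (b k : ℕ) : ℝ := (b : ℝ) ^ 2 * (Real.log ((k : ℝ) + 2) / ((k : ℝ) + 1))

lemma xx_nonneg (b k : ℕ) : 0 ≤ xx b k := by
  have h1 : (0:ℝ) ≤ (k:ℝ) := Nat.cast_nonneg k
  have h2 : 0 ≤ Real.log ((k : ℝ) + 2) := Real.log_nonneg (by linarith)
  unfold xx
  positivity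

section

variable (hp : ∀ n, 0 < β (2 * n))

include hp

lemma q_pos (k : ℕ) : 0 < q β k := by
  have h1 : (0:ℝ) < β (2 * (k + 1)) := by exact_mod_cast hp (k + 1)
  have h2 : (0:ℝ) < β (2 * k) := by exact_mod_cast hp k
  exact div_pos h1 h2

lemma q_mul (k : ℕ) : (β (2 * (k + 1)) : ℝ) = q β k * β (2 * k) := by
  have h2 : (β (2 * k) : ℝ) ≠ 0 := by exact_mod_cast (hp k).ne'
  unfold q
  rw [div_mul_cancel₀ _ h2]

lemma q_succ (h1 : ∀ n, β (2 * n + 2) ^ 2 ≤ β (2 * n) * β (2 * n + 4)) (k : ℕ) :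
    q β k ≤ q β (k + 1) := by
  have a1 : (0:ℝ) < β (2 * (k + 1)) := by exact_mod_cast hp (k + 1)
  have a2 : (0:ℝ) < β (2 * k) := by exact_mod_cast hp k
  unfold q
  rw [div_le_div_iff₀ a2 a1]
  have h : ((β (2 * k + 2) ^ 2 : ℕ) : ℝ) ≤ ((β (2 * k) * β (2 * k + 4) : ℕ) : ℝ) := by
    exact_mod_cast h1 k
  push_cast at h
  have e1 : 2 * (k + 1) = 2 * k + 2 := by ring
  have e2 : 2 * (k + 1 + 1) = 2 * k + 4 := by ring
  rw [e1, e2]
  nlinarith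

lemma q_mono (h1 : ∀ n, β (2 * n + 2) ^ 2 ≤ β (2 * n) * β (2 * n + 4)) : Monotone (q β) :=
  monotone_nat_of_le_succ (q_succ hp h1)

lemma le_pow_q (h0 : β 0 = 1) (h1 : ∀ n, β (2 * n + 2) ^ 2 ≤ β (2 * n) * β (2 * n + 4)) (k : ℕ) :
    (β (2 * k) : ℝ) ≤ q β k ^ k := by
  induction k with
  | zero => simp [h0]
  | succ k ih =>
    rw [q_mul hp k]
    have h2 := q_pos hp k
    calc q β k * β (2 * k) ≤ q β k * q β k ^ k := by gcongr
      _ = q β k ^ (k + 1) := by ring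
      _ ≤ q β (k + 1) ^ (k + 1) := pow_le_pow_left₀ h2.le (q_succ hp h1 k) _

lemma q_ge (hb : 0 < b) (h0 : β 0 = 1) (h1 : ∀ n, β (2 * n + 2) ^ 2 ≤ β (2 * n) * β (2 * n + 4))
    (h3 : ∀ n, (b ^ 2) ^ n ≤ (n + 1) ^ (b ^ 2) * β (2 * n)) (k : ℕ) :
    (b : ℝ) ^ 2 * (1 - xx b k) ≤ q β k := by
  have hb' : (0:ℝ) < b := by exact_mod_cast hb
  have hq := q_pos hp k
  have a1 : (((b ^ 2) ^ (k + 1) : ℕ) : ℝ) ≤ (((k + 1 + 1) ^ (b ^ 2) * β (2 * (k + 1)) : ℕ) : ℝ) := by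
    exact_mod_cast h3 (k + 1)
  push_cast at a1
  have a2 : (β (2 * (k + 1)) : ℝ) ≤ q β k ^ (k + 1) := by
    rw [q_mul hp k, pow_succ']
    have := le_pow_q hp h0 h1 k
    gcongr
  have hk2 : (0:ℝ) < (k:ℝ) + 1 + 1 := by positivity
  have a3 : ((b:ℝ) ^ 2) ^ (k + 1) ≤ ((k:ℝ) + 1 + 1) ^ (b ^ 2) * q β k ^ (k + 1) := by
    refine a1.trans ?_
    gcongr
  have a4 := Real.log_le_log (by positivity) a3
  rw [Real.log_mul (by positivity) (by positivity), Real.log_pow ((b:ℝ) ^ 2) (k + 1),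
    Real.log_pow _ (b ^ 2), Real.log_pow (q β k) (k + 1)] at a4
  push_cast at a4
  have hk1 : (0:ℝ) < (k:ℝ) + 1 := by positivity
  have e1 : (k:ℝ) + 1 + 1 = k + 2 := by ring
  rw [e1] at a4
  have a5 : Real.log ((b:ℝ) ^ 2) - xx b k ≤ Real.log (q β k) := by
    have e2 : xx b k = (b:ℝ) ^ 2 * Real.log ((k:ℝ) + 2) / ((k:ℝ) + 1) := by
      unfold xx
      ring
    rw [e2, sub_le_iff_le_add]
    have h6 : Real.log ((b:ℝ) ^ 2) = (((k:ℝ) + 1) * Real.log ((b:ℝ) ^ 2)) / ((k:ℝ) + 1) := by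
      field_simp
    have h7 : Real.log (q β k) + (b:ℝ) ^ 2 * Real.log ((k:ℝ) + 2) / ((k:ℝ) + 1) =
        ((b:ℝ) ^ 2 * Real.log ((k:ℝ) + 2) + ((k:ℝ) + 1) * Real.log (q β k)) / ((k:ℝ) + 1) := by
      field_simp
      ring
    rw [h6, h7]
    exact div_le_div_of_nonneg_right a4 hk1.le
  have a6 : Real.exp (Real.log ((b:ℝ) ^ 2) - xx b k) ≤ q β k := by
    calc _ ≤ Real.exp (Real.log (q β k)) := Real.exp_le_exp.2 a5
      _ = q β k := Real.exp_log hq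
  refine le_trans ?_ a6
  rw [sub_eq_add_neg (Real.log ((b:ℝ) ^ 2)), Real.exp_add, Real.exp_log (by positivity)]
  have := Real.add_one_le_exp (-xx b k)
  have h8 : 1 - xx b k ≤ Real.exp (-xx b k) := by linarith
  gcongr

lemma even_ge (h1 : ∀ n, β (2 * n + 2) ^ 2 ≤ β (2 * n) * β (2 * n + 4)) (k j : ℕ) :
    (β (2 * k) : ℝ) * q β k ^ j ≤ β (2 * (k + j)) := by
  induction j with
  | zero => simp
  | succ j ih =>
    have e : 2 * (k + (j + 1)) = 2 * (k + j + 1) := by ring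
    rw [e, q_mul hp (k + j), pow_succ, ← mul_assoc, mul_comm (q β (k + j))]
    have h2 := q_pos hp k
    have h3 : q β k ≤ q β (k + j) := q_mono hp h1 (Nat.le_add_right k j)
    have h4 : (0:ℝ) ≤ β (2 * k) := Nat.cast_nonneg _
    exact mul_le_mul ih h3 h2.le (Nat.cast_nonneg _)

/-- the main inequality for even indices -/
lemma even_ge' (hb : 0 < b) (h0 : β 0 = 1)
    (h1 : ∀ n, β (2 * n + 2) ^ 2 ≤ β (2 * n) * β (2 * n + 4))
    (h3 : ∀ n, (b ^ 2) ^ n ≤ (n + 1) ^ (b ^ 2) * β (2 * n)) (k j : ℕ) (hx : xx b k ≤ 1) :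
    (b : ℝ) ^ (2 * j) * (1 - j * xx b k) * β (2 * k) ≤ β (2 * (k + j)) := by
  have hb' : (0:ℝ) < b := by exact_mod_cast hb
  have a1 := q_ge hp hb h0 h1 h3 k
  have a2 : 0 ≤ 1 - xx b k := by linarith
  have a3 : ((b : ℝ) ^ 2 * (1 - xx b k)) ^ j ≤ q β k ^ j := pow_le_pow_left₀ (by positivity) a1 j
  have a4 : 1 - j * xx b k ≤ (1 - xx b k) ^ j := by
    have h := one_add_mul_le_pow (a := -xx b k) (by linarith) j
    rw [← sub_eq_add_neg] at h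
    linarith
  have a5 : (0:ℝ) ≤ β (2 * k) := Nat.cast_nonneg _
  calc (b : ℝ) ^ (2 * j) * (1 - j * xx b k) * β (2 * k)
      ≤ (b : ℝ) ^ (2 * j) * (1 - xx b k) ^ j * β (2 * k) := by gcongr
    _ = β (2 * k) * ((b : ℝ) ^ 2 * (1 - xx b k)) ^ j := by rw [mul_pow, ← pow_mul]; ring
    _ ≤ β (2 * k) * q β k ^ j := by gcongr
    _ ≤ _ := even_ge hp h1 k j

/-- the step to an odd index -/
lemma odd_ge (hb : 0 < b) (h0 : β 0 = 1)
    (h1 : ∀ n, β (2 * n + 2) ^ 2 ≤ β (2 * n) * β (2 * n + 4))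
    (h3 : ∀ n, (b ^ 2) ^ n ≤ (n + 1) ^ (b ^ 2) * β (2 * n))
    (h5 : ∀ n, β (2 * n + 2) ≤ β (2 * n + 1) + (b ^ 2 - b) * β (2 * n)) (k i : ℕ) (hki : k ≤ i) :
    (b : ℝ) * (1 - b * xx b k) * β (2 * i) ≤ β (2 * i + 1) := by
  have hbb : b ≤ b ^ 2 := by nlinarith
  have h8 : ((β (2 * i + 2) : ℕ) : ℝ) ≤
      ((β (2 * i + 1) + (b ^ 2 - b) * β (2 * i) : ℕ) : ℝ) := by exact_mod_cast h5 i
  rw [Nat.cast_add, Nat.cast_mul, Nat.cast_sub hbb, Nat.cast_pow] at h8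
  have e1 : (β (2 * i + 2) : ℝ) = q β i * β (2 * i) := by
    rw [← q_mul hp i]
    congr 2
  rw [e1] at h8
  have a1 := q_ge hp hb h0 h1 h3 k
  have a2 : q β k ≤ q β i := q_mono hp h1 hki
  have a5 : (0:ℝ) ≤ β (2 * i) := Nat.cast_nonneg _
  have a6 : (b : ℝ) ^ 2 * (1 - xx b k) * β (2 * i) ≤ q β i * β (2 * i) :=
    mul_le_mul_of_nonneg_right (a1.trans a2) a5
  nlinarith

lemma all_ge (hb : 0 < b) (h0 : β 0 = 1)
    (h1 : ∀ n, β (2 * n + 2) ^ 2 ≤ β (2 * n) * β (2 * n + 4))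
    (h3 : ∀ n, (b ^ 2) ^ n ≤ (n + 1) ^ (b ^ 2) * β (2 * n))
    (h5 : ∀ n, β (2 * n + 2) ≤ β (2 * n + 1) + (b ^ 2 - b) * β (2 * n)) (k m : ℕ)
    (hx : b * xx b k ≤ 1) :
    (b : ℝ) ^ m * (1 - ((m / 2 : ℕ) + b) * xx b k) * β (2 * k) ≤ β (2 * k + m) := by
  have hb' : (1:ℝ) ≤ b := by exact_mod_cast hb
  have x0 := xx_nonneg b k
  have hx1 : xx b k ≤ 1 := by nlinarith
  have a5 : (0:ℝ) ≤ β (2 * k) := Nat.cast_nonneg _
  rcases Nat.even_or_odd' m with ⟨j, rfl | rfl⟩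
  · have e1 : 2 * j / 2 = j := by omega
    have e2 : 2 * k + 2 * j = 2 * (k + j) := by ring
    rw [e1, e2]
    refine le_trans ?_ (even_ge' hp hb h0 h1 h3 k j hx1)
    have : 1 - ((j:ℝ) + b) * xx b k ≤ 1 - j * xx b k := by nlinarith
    gcongr
  · have e1 : (2 * j + 1) / 2 = j := by omega
    have e2 : 2 * k + (2 * j + 1) = 2 * (k + j) + 1 := by ring
    rw [e1, e2]
    refine le_trans ?_ (odd_ge hp hb h0 h1 h3 h5 k (k + j) (Nat.le_add_right _ _))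
    have a6 := even_ge' hp hb h0 h1 h3 k j hx1
    have a7 : 0 ≤ (b:ℝ) * (1 - b * xx b k) := by
      have : 0 ≤ 1 - b * xx b k := by linarith
      positivity
    refine le_trans ?_ (mul_le_mul_of_nonneg_left a6 a7)
    have a8 : 1 - ((j:ℝ) + b) * xx b k ≤ (1 - b * xx b k) * (1 - j * xx b k) := by
      have : 0 ≤ (b:ℝ) * j * xx b k ^ 2 := by positivity
      nlinarith
    calc (b:ℝ) ^ (2 * j + 1) * (1 - ((j:ℝ) + b) * xx b k) * β (2 * k)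
        ≤ (b:ℝ) ^ (2 * j + 1) * ((1 - b * xx b k) * (1 - j * xx b k)) * β (2 * k) := by gcongr
      _ = _ := by ring

end

theorem rate (hb : 0 < b) (h0 : β 0 = 1)
    (h1 : ∀ n, β (2 * n + 2) ^ 2 ≤ β (2 * n) * β (2 * n + 4))
    (h3 : ∀ n, (b ^ 2) ^ n ≤ (n + 1) ^ (b ^ 2) * β (2 * n))
    (h5 : ∀ n, β (2 * n + 2) ≤ β (2 * n + 1) + (b ^ 2 - b) * β (2 * n)) (m n : ℕ) :
    (b : ℝ) ^ m * (1 - ((m : ℝ) + 1) * b ^ 3 * (Real.log ((n / 2 : ℕ) + 2) / ((n / 2 : ℕ) + 1))) *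
      ((b ^ (n % 2) * β (2 * (n / 2)) : ℕ) : ℝ) ≤ β (n + m) := by
  have hp := pos_even hb h3
  have hb' : (1:ℝ) ≤ b := by exact_mod_cast hb
  set k := n / 2 with hk
  have x0 := xx_nonneg b k
  have e0 : ((m : ℝ) + 1) * b ^ 3 * (Real.log ((k : ℝ) + 2) / ((k : ℝ) + 1)) =
      ((m : ℝ) + 1) * b * xx b k := by
    unfold xx
    ring
  rw [e0]
  have m0 : (0:ℝ) ≤ m := Nat.cast_nonneg m
  by_cases hX : 1 ≤ ((m : ℝ) + 1) * b * xx b k
  · have c1 : 1 - ((m : ℝ) + 1) * b * xx b k ≤ 0 := by linarith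
    have c2 : (b : ℝ) ^ m * (1 - ((m : ℝ) + 1) * b * xx b k) *
        ((b ^ (n % 2) * β (2 * k) : ℕ) : ℝ) ≤ 0 := by
      apply mul_nonpos_of_nonpos_of_nonneg _ (Nat.cast_nonneg _)
      exact mul_nonpos_of_nonneg_of_nonpos (by positivity) c1
    exact c2.trans (Nat.cast_nonneg _)
  · rw [not_le] at hX
    have hbx : 0 ≤ b * xx b k := by positivity
    have hbx1 : b * xx b k ≤ 1 := by nlinarith
    rcases Nat.even_or_odd' n with ⟨i, hi | hi⟩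
    · have e1 : n % 2 = 0 := by omega
      have e2 : n = 2 * k := by omega
      rw [e1, pow_zero, one_mul]
      have a1 := all_ge hp hb h0 h1 h3 h5 k m hbx1
      rw [← e2] at a1 ⊢
      refine le_trans ?_ a1
      have a2 : (((m / 2 : ℕ) : ℝ) + b) * xx b k ≤ ((m : ℝ) + 1) * b * xx b k := by
        have a3 : ((m / 2 : ℕ) : ℝ) ≤ m := by exact_mod_cast Nat.div_le_self m 2
        have a4 : ((m / 2 : ℕ) : ℝ) + b ≤ ((m : ℝ) + 1) * b := by nlinarith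
        exact mul_le_mul_of_nonneg_right a4 x0
      gcongr
    · have e1 : n % 2 = 1 := by omega
      have e2 : n + m = 2 * k + (m + 1) := by omega
      rw [e1, pow_one, e2]
      have a1 := all_ge hp hb h0 h1 h3 h5 k (m + 1) hbx1
      refine le_trans ?_ a1
      have a2 : ((((m + 1) / 2 : ℕ) : ℝ) + b) * xx b k ≤ ((m : ℝ) + 1) * b * xx b k := by
        have a3 : (((m + 1) / 2 : ℕ) : ℝ) ≤ m := by exact_mod_cast (by omega : (m + 1) / 2 ≤ m)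
        have a4 : (((m + 1) / 2 : ℕ) : ℝ) + b ≤ ((m : ℝ) + 1) * b := by nlinarith
        exact mul_le_mul_of_nonneg_right a4 x0
      have a6 : (0:ℝ) ≤ β (2 * k) := Nat.cast_nonneg _
      push_cast
      calc (b : ℝ) ^ m * (1 - ((m : ℝ) + 1) * b * xx b k) * ((b : ℝ) * β (2 * k))
          = (b : ℝ) ^ (m + 1) * (1 - ((m : ℝ) + 1) * b * xx b k) * β (2 * k) := by ring
        _ ≤ _ := by gcongr

end Pool.Agent.N344.AF

open CategoryTheory Limits MonoidalCategory Module Filter Topology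
open Pool.Agent.Y112.SR Pool.Agent.Y112.KD
open Pool.Agent.Y116.MT (tr)
open scoped ENNReal

namespace Pool.Agent.N64.AF

universe v u w t x

/-- E4: the numerical part, with a rate. -/
theorem rate_cmpSeq {β : ℕ → ℕ} {b : ℕ} (hb : 0 < b) (h0 : β 0 = 1)
    (h1 : ∀ n, β (2 * n + 2) ^ 2 ≤ β (2 * n) * β (2 * n + 4))
    (h2 : ∀ n, β (2 * n + 2) ≤ b ^ 2 * β (2 * n))
    (h3 : ∀ n, (b ^ 2) ^ n ≤ (n + 1) ^ (b ^ 2) * β (2 * n))
    (h4 : ∀ n, β (2 * n + 1) ≤ b * β (2 * n))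
    (h5 : ∀ n, β (2 * n + 2) ≤ β (2 * n + 1) + (b ^ 2 - b) * β (2 * n)) (m n : ℕ) :
    (b : ℝ) ^ m * (1 - ((m : ℝ) + 1) * b ^ 3 * (Real.log ((n / 2 : ℕ) + 2) / ((n / 2 : ℕ) + 1))) *
      cmpSeq β b n ≤ β (n + m) :=
  Pool.Agent.N344.AF.rate hb h0 h1 h3 h5 m n

end Pool.Agent.N64.AF
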